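import Pool.Agent.Lib.MP_b2ebfc_lc.Iface

/-!
# TIME3: the time of the polynomial parts of the program
-/

set_option autoImplicit false

namespace Pool.Agent.Lib.MP_b2ebfc_lc.H81

open Finset

/-- The bound for all loop bounds. -/
def bd (n : ℕ) : ℕ := 8 * (n + 2) ^ 2

theorem bd_le (n : ℕ) : bd n + 1 ≤ 33 * (n + 1) ^ 2 := by
  unfold bd
  obtain ⟨m, hm⟩ : ∃ m : ℕ, m = n ^ 2 := ⟨_, rfl⟩
  calc 8 * (n + 2) ^ 2 + 1 = 8 * n ^ 2 + 32 * n + 33 := by ring
    _ ≤ 33 * n ^ 2 + 66 * n + 33 := by rw [← hm]; omega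
    _ = 33 * (n + 1) ^ 2 := by ring

/-- A program all whose loops are bounded by registers with values at most `8 (n+2)²` is
polynomial. -/
theorem poly (p : Prog) (L : List ℕ) (h : p.ok L = true) :
    ∃ C d : ℕ, ∀ (w n : ℕ) (s : St), (∀ j ∈ L, s.r j ≤ bd n) → p.time w s ≤ C * (n + 1) ^ d := by
  refine ⟨p.sz * 33 ^ p.dg, 2 * p.dg, fun w n s hs => ?_⟩
  refine ((p.time_le w L (bd n) h s hs).trans (p.tb_le (bd n))).trans ?_
  calc p.sz * (bd n + 1) ^ p.dg ≤ p.sz * (33 * (n + 1) ^ 2) ^ p.dg :=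
        Nat.mul_le_mul_left _ (Nat.pow_le_pow_left (bd_le n) _)
    _ = p.sz * 33 ^ p.dg * (n + 1) ^ (2 * p.dg) := by rw [mul_pow, ← pow_mul, mul_assoc]

theorem seqs_append_time (w : ℕ) (l1 l2 : List Prog) : ∀ s : St,
    (seqs (l1 ++ l2)).time w s ≤ (seqs l1).time w s + (seqs l2).time w ((seqs l1).run w s) := by
  induction l1 with
  | nil => intro s; simp [seqs, Prog.time, Prog.run]
  | cons p l ih =>
    intro s
    have := ih (p.run w s)
    simp only [List.cons_append, seqs, Prog.time, Prog.run]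
    omega

theorem mod_le (w : ℕ) (x : ℤ) (hx : 0 ≤ x) : x % 2 ^ w ≤ x := by
  have h1 : (0 : ℤ) < 2 ^ w := by positivity
  have h2 := Int.emod_add_mul_ediv x (2 ^ w)
  have h3 : 0 ≤ x / 2 ^ w := Int.ediv_nonneg hx h1.le
  nlinarith

/-- The straight-line part of `constP`. -/
def constA : List Prog := [
  .set 13 (.sub (.reg 4) (.const 1)),
  .set 14 (.mul (.add (.reg 4) (.const 1)) (.add (.reg 4) (.const 1))),
  .set 15 (.mul (.reg 4) (.reg 4)),
  .set 17 (.add (.reg 5) (.const 1)),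
  .set 18 (.add (.reg 0) (.const 1)),
  .set 8 (.mul (.const 8) (.mul (.add (.reg 0) (.const 2)) (.add (.reg 0) (.const 2)))),
  .set 6 (.cond (.mul (.const 13) (.reg 3)) (.mul (.const 12) (.reg 4)) (.reg 3)
    (.div (.mul (.const 5) (.reg 3)) (.const 8)))]

/-- The rest of `constP`. -/
def constB : List Prog := [
  .put 4 (.const 0) (.const 1),
  .loop 30 (.reg 0) (.put 4 (.add (.reg 30) (.const 1)) (.mul (.const 2) (.arr 4 (.reg 30)))),
  .put 5 (.const 0) (.const 1),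
  .loop 30 (.reg 0) (.put 5 (.add (.reg 30) (.const 1)) (.mul (.const 3) (.arr 5 (.reg 30)))),
  .set 10 (.arr 4 (.reg 3)),
  .set 11 (.arr 4 (.reg 4)),
  .set 7 (.const 1),
  .loop 30 (.reg 8) (.set 7 (.mul (.const 2) (.reg 7))),
  .put 7 (.const 0) (.const 1),
  .loop 30 (.reg 14) (.put 7 (.add (.reg 30) (.const 1)) (.mul (.reg 7) (.arr 7 (.reg 30)))),
  .set 12 (.arr 7 (.add (.reg 4) (.const 1))),
  .loop 30 (.reg 18) (.loop 31 (.reg 18) (.put 6 (.add (.mul (.reg 30) (.reg 18)) (.reg 31))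
    (.cond (.reg 31) (.const 1) (.const 1) (.cond (.reg 30) (.const 1) (.const 0)
      (.add (.arr 6 (.add (.mul (.sub (.reg 30) (.const 1)) (.reg 18))
          (.sub (.reg 31) (.const 1))))
        (.arr 6 (.add (.mul (.sub (.reg 30) (.const 1)) (.reg 18)) (.reg 31))))))))]

theorem constP_eq : constP = seqs (constA ++ constB) := rfl

theorem constA_run (w : ℕ) (s : St) :
    ((seqs constA).run w s).r 0 = s.r 0 ∧
    ((seqs constA).run w s).r 8 = (8 * ((s.r 0 + 2) * (s.r 0 + 2))) % 2 ^ w ∧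
    ((seqs constA).run w s).r 14 = ((s.r 4 + 1) * (s.r 4 + 1)) % 2 ^ w ∧
    ((seqs constA).run w s).r 18 = (s.r 0 + 1) % 2 ^ w := by
  refine ⟨?_, ?_, ?_, ?_⟩ <;> simp [constA, seqs, Prog.run, Expr.eval]

/-- TIME3. -/
theorem time3 : Time3Statement := by
  obtain ⟨C1, d1, h1⟩ := poly colorP [0] rfl
  obtain ⟨C2, d2, h2⟩ := poly sizesP [0] rfl
  obtain ⟨C3, d3, h3⟩ := poly (.seq (tab 30 16 3 matE) .skip) [0, 4, 16] rfl
  obtain ⟨C4, d4, h4⟩ := poly (seqs constA) [] rfl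
  obtain ⟨C5, d5, h5⟩ := poly (seqs constB) [0, 8, 14, 18] rfl
  obtain ⟨C6, d6, h6⟩ := poly finalP [17] rfl
  refine ⟨C1 + C2 + C3 + C4 + C5 + C6 + 5, d1 + d2 + d3 + d4 + d5 + d6, fun w n s h0 => ?_⟩
  have hn : ∀ (C d : ℕ), C ≤ C1 + C2 + C3 + C4 + C5 + C6 + 5 →
      d ≤ d1 + d2 + d3 + d4 + d5 + d6 →
      C * (n + 1) ^ d ≤ (C1 + C2 + C3 + C4 + C5 + C6 + 5) *
        (n + 1) ^ (d1 + d2 + d3 + d4 + d5 + d6) := fun C d hC hd =>
    Nat.mul_le_mul hC (Nat.pow_le_pow_right (by omega) hd)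
  have hbd : (n : ℤ) + 1 ≤ bd n := by
    unfold bd; push_cast; nlinarith
  have hbd2 : ((n : ℤ) + 1) * (n + 1) ≤ bd n := by
    unfold bd; push_cast; nlinarith
  refine ⟨?_, ?_, ?_, ?_, ?_⟩
  · refine (h1 w n s ?_).trans (hn C1 d1 (by omega) (by omega))
    intro j hj
    simp only [List.mem_singleton] at hj
    subst hj
    omega
  · refine (h2 w n s ?_).trans (hn C2 d2 (by omega) (by omega))
    intro j hj
    simp only [List.mem_singleton] at hj
    subst hj
    omega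
  · intro h30 h31 h40 h41
    have hm : matP.time w s = 4 + (Prog.seq (tab 30 16 3 matE) .skip).time w
        (s.setR 16 ((s.r 3 * s.r 4) % 2 ^ w)) + 1 := rfl
    rw [hm]
    have h16 : (s.r 3 * s.r 4) % 2 ^ w ≤ bd n := by
      refine (mod_le w _ (mul_nonneg h30 h40)).trans ?_
      nlinarith
    have := h3 w n (s.setR 16 ((s.r 3 * s.r 4) % 2 ^ w)) (by
      intro j hj
      simp only [List.mem_cons, List.not_mem_nil, or_false] at hj
      rcases hj with rfl | rfl | rfl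
      · simp; omega
      · simp; omega
      · simpa using h16)
    have h5' := hn (C3 + 5) d3 (by omega) (by omega)
    have h6' : 1 ≤ (n + 1) ^ d3 := Nat.one_le_pow _ _ (by omega)
    have h7' : (C3 + 5) * (n + 1) ^ d3 = C3 * (n + 1) ^ d3 + 5 * (n + 1) ^ d3 := by ring
    omega
  · intro h40 h41 h50 h51
    rw [constP_eq]
    refine (seqs_append_time w constA constB s).trans ?_
    have ha := h4 w n s (by simp)
    obtain ⟨r0, r8, r14, r18⟩ := constA_run w s
    have hb := h5 w n ((seqs constA).run w s) (by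
      intro j hj
      simp only [List.mem_cons, List.not_mem_nil, or_false] at hj
      rcases hj with rfl | rfl | rfl | rfl
      · rw [r0, h0]; omega
      · rw [r8, h0]
        refine (mod_le w _ (by positivity)).trans (le_of_eq ?_)
        unfold bd; push_cast; ring
      · rw [r14]
        refine (mod_le w _ (by nlinarith)).trans ?_
        nlinarith
      · rw [r18, h0]
        exact (mod_le w _ (by positivity)).trans hbd)
    have hc1 : C4 * (n + 1) ^ d4 ≤ C4 * (n + 1) ^ (d1 + d2 + d3 + d4 + d5 + d6) :=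
      Nat.mul_le_mul_left _ (Nat.pow_le_pow_right (by omega) (by omega))
    have hc2 : C5 * (n + 1) ^ d5 ≤ C5 * (n + 1) ^ (d1 + d2 + d3 + d4 + d5 + d6) :=
      Nat.mul_le_mul_left _ (Nat.pow_le_pow_right (by omega) (by omega))
    calc _ ≤ C4 * (n + 1) ^ (d1 + d2 + d3 + d4 + d5 + d6) +
          C5 * (n + 1) ^ (d1 + d2 + d3 + d4 + d5 + d6) := Nat.add_le_add (ha.trans hc1) (hb.trans hc2)
      _ = (C4 + C5) * (n + 1) ^ (d1 + d2 + d3 + d4 + d5 + d6) := by ring
      _ ≤ _ := Nat.mul_le_mul_right _ (by omega)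
  · intro h17
    refine (h6 w n s ?_).trans (hn C6 d6 (by omega) (by omega))
    intro j hj
    simp only [List.mem_singleton] at hj
    subst hj
    omega

end Pool.Agent.Lib.MP_b2ebfc_lc.H81
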